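import Pool.Agent.Helper95.KZ.Goals

/-!
# KZ-JMP: a line disjoint from its translate by a finite central element does not separate
-/

set_option autoImplicit false

namespace Pool.Agent.Helper34.KZ

open Pool.Agent.Helper52.Wq2 Pool.Agent.Helper95.KZ

universe u

theorem conn_union' {V : Type*} {G : SimpleGraph V} {s t : Set V} (hs : Conn G s) (ht : Conn G t)
    {a : V} (ha : a ∈ s) (hb : a ∈ t) : Conn G (s ∪ t) := by
  refine ⟨⟨a, Or.inl ha⟩, ?_⟩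
  intro A hA hne hcl
  have h1' : (A ∩ s).Nonempty → s ⊆ A := by
    intro hn x hx
    exact (hs.2 (A ∩ s) Set.inter_subset_right hn
      (fun y hy z hz hyz => ⟨hcl y hy.1 z (Or.inl hz) hyz, hz⟩) hx).1
  have h2' : (A ∩ t).Nonempty → t ⊆ A := by
    intro hn x hx
    exact (ht.2 (A ∩ t) Set.inter_subset_right hn
      (fun y hy z hz hyz => ⟨hcl y hy.1 z (Or.inr hz) hyz, hz⟩) hx).1
  obtain ⟨x, hx⟩ := hne
  have both : s ⊆ A ∧ t ⊆ A := by
    rcases hA hx with hxs | hxt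
    · have e1 := h1' ⟨x, hx, hxs⟩
      exact ⟨e1, h2' ⟨a, e1 ha, hb⟩⟩
    · have e1 := h2' ⟨x, hx, hxt⟩
      exact ⟨h1' ⟨a, e1 hb, ha⟩, e1⟩
  rintro y (hy | hy)
  · exact both.1 hy
  · exact both.2 hy

/-- Finite connected subsets. -/
theorem fin_sub {V : Type*} {G : SimpleGraph V} {W : Set V} (hW : Conn G W) {p q : V} (hp : p ∈ W)
    (hq : q ∈ W) : ∃ F : Set V, F.Finite ∧ F ⊆ W ∧ Conn G F ∧ p ∈ F ∧ q ∈ F := by
  have h := hW.2 {x | x ∈ W ∧ ∃ F : Set V, F.Finite ∧ F ⊆ W ∧ Conn G F ∧ p ∈ F ∧ x ∈ F}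
    (fun x hx => hx.1)
    ⟨p, hp, {p}, Set.finite_singleton p, Set.singleton_subset_iff.2 hp, conn_singleton G p, rfl, rfl⟩
    (by
      rintro x ⟨hx, F, hF, hFW, hFc, hpF, hxF⟩ y hy hxy
      exact ⟨hy, F ∪ {y}, hF.union (Set.finite_singleton y),
        Set.union_subset hFW (Set.singleton_subset_iff.2 hy),
        hFc.union (conn_singleton G y) hxF rfl hxy, Or.inl hpF, Or.inr rfl⟩)
  exact (h hq).2

variable {Γ : Type u} [Group Γ] {S : Set Γ}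

theorem conn_left (hS : IsGen S) (g : Γ) {W : Set Γ} (hW : Conn (cay S) W) :
    Conn (cay S) ((fun x => g * x) '' W) := by
  refine hW.image _ fun a _ b _ hab => Or.inr ?_
  rw [cay_adj hS] at hab ⊢
  have : (g * a)⁻¹ * (g * b) = a⁻¹ * b := by group
  rw [this]
  exact hab

/-- The points connected to `R` outside of `l`. -/
def UU (S l R : Set Γ) : Set Γ :=
  {x | ∃ W : Set Γ, Conn (cay S) W ∧ Disjoint W l ∧ x ∈ W ∧ (W ∩ R).Nonempty}

theorem absorb {l R : Set Γ} {x y : Γ} (hx : x ∈ UU S l R) (hy : y ∉ l)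
    (hxy : (cay S).Adj x y) : y ∈ UU S l R := by
  obtain ⟨W, hW, hWl, hxW, r, hrW, hrR⟩ := hx
  refine ⟨W ∪ {y}, hW.union (conn_singleton _ y) hxW rfl hxy, ?_, Or.inr rfl, r, Or.inl hrW, hrR⟩
  rw [Set.disjoint_union_left]
  exact ⟨hWl, Set.disjoint_singleton_left.2 hy⟩

theorem nosep (hS : IsGen S) (hconn : ∀ U : Set Γ, U.Nonempty →
    (∀ a ∈ U, ∀ b, (cay S).Adj a b → b ∈ U) → ∀ x, x ∈ U) {k : Γ} {o : ℕ} (ho : 0 < o)
    (hko : k ^ o = 1) {l : Set Γ} (hl : l.Nonempty) (hkl : ∀ x ∈ l, k * x ∉ l) {R : Set Γ}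
    (hR : R.Nonempty) (hRl : Disjoint R l) (hkR : ∀ x ∈ R, k * x ∈ R)
    (hsep : ∀ x ∈ l, k * x ∉ UU S l R) : False := by
  have hkn : ∀ n : ℕ, ∀ x ∈ R, k ^ n * x ∈ R := by
    intro n
    induction n with
    | zero => intro x hx; simpa using hx
    | succ n ih =>
      intro x hx
      rw [pow_succ', mul_assoc]
      exact hkR _ (ih x hx)
  have hki : k⁻¹ = k ^ (o - 1) := by
    rw [inv_eq_iff_mul_eq_one, ← pow_succ']
    rw [Nat.sub_add_cancel ho, hko]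
  have hinv : ∀ x ∈ UU S l R, k⁻¹ * x ∈ UU S l R := by
    intro x hx
    obtain ⟨W, hW, hWl, hxW, r, hrW, hrR⟩ := id hx
    have hWU : ∀ w ∈ W, w ∈ UU S l R := fun w hw => ⟨W, hW, hWl, hw, r, hrW, hrR⟩
    refine ⟨(fun x => k⁻¹ * x) '' W, conn_left hS _ hW, ?_, ⟨x, hxW, rfl⟩, k⁻¹ * r, ⟨r, hrW, rfl⟩, ?_⟩
    · rw [Set.disjoint_left]
      rintro _ ⟨w, hw, rfl⟩ hwl
      have := hsep _ hwl
      rw [mul_inv_cancel_left] at this
      exact this (hWU w hw)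
    · rw [hki]
      exact hkn _ _ hrR
  have hinvn : ∀ n : ℕ, ∀ x ∈ UU S l R, (k⁻¹) ^ n * x ∈ UU S l R := by
    intro n
    induction n with
    | zero => intro x hx; simpa using hx
    | succ n ih =>
      intro x hx
      rw [pow_succ', mul_assoc]
      exact hinv _ (ih x hx)
  have hk : ∀ x ∈ UU S l R, k * x ∈ UU S l R := by
    intro x hx
    have h1 : (k⁻¹) ^ (o - 1) = k := by
      rw [inv_pow, ← hki, inv_inv]
    have := hinvn (o - 1) x hx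
    rwa [h1] at this
  have hUl : ∀ x ∈ UU S l R, x ∉ l := by
    rintro x ⟨W, _, hWl, hxW, _⟩ hxl
    exact Set.disjoint_left.1 hWl hxW hxl
  obtain ⟨x₀, hx₀⟩ := hl
  obtain ⟨r, hr⟩ := hR
  have hrU : r ∈ UU S l R := ⟨{r}, conn_singleton _ r, Set.disjoint_singleton_left.2
    (Set.disjoint_left.1 hRl hr), rfl, r, rfl, hr⟩
  refine hUl x₀ (hconn (UU S l R) ⟨r, hrU⟩ ?_ x₀) hx₀
  intro x hx y hxy
  by_contra hy
  have hyl : y ∈ l := by
    by_contra hyl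
    exact hy (absorb hx hyl hxy)
  have h1 : k⁻¹ * y ∉ l := by
    intro h
    have := hkl _ h
    rw [mul_inv_cancel_left] at this
    exact this hyl
  have h2 : (cay S).Adj (k⁻¹ * x) (k⁻¹ * y) := by
    rw [cay_adj hS] at hxy ⊢
    have : (k⁻¹ * x)⁻¹ * (k⁻¹ * y) = x⁻¹ * y := by group
    rw [this]
    exact hxy
  have h3 := hk _ (absorb (hinv x hx) h1 h2)
  rw [mul_inv_cancel_left] at h3
  exact hy h3

theorem cay_closed (hS : IsGen S) (U : Set Γ) (hU : U.Nonempty)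
    (hcl : ∀ a ∈ U, ∀ b, (cay S).Adj a b → b ∈ U) : ∀ x, x ∈ U := by
  obtain ⟨u, hu⟩ := hU
  have key : ∀ x ∈ Subgroup.closure S, u * x ∈ U := by
    intro x hx
    induction hx using Subgroup.closure_induction_right with
    | one => rw [mul_one]; exact hu
    | mul_right x _ s hs ih =>
      rw [← mul_assoc]
      exact hcl _ ih _ (cay_adj_mul hS _ hs)
    | mul_inv_cancel x _ s hs ih =>
      rw [← mul_assoc]
      exact hcl _ ih _ (cay_adj_mul hS _ (hS.2.1 _ hs))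
  intro x
  have := key (u⁻¹ * x) (by rw [hS.1]; trivial)
  rwa [mul_inv_cancel_left] at this

theorem jmp : JmpStmt.{u} := by
  intro Γ _ S a b k B P o ho hko l hl hkl L hL hLl c
  have hS := P.gen
  set c' : ℤ := max c (L + 1) with hc'
  have hc1 : c ≤ c' := le_max_left _ _
  have hc2 : L + 1 ≤ c' := le_max_right _ _
  have hk1 : ∀ (Q : ℤ → Prop), ∀ x ∈ Sl a b B Q, k * x ∈ Sl a b B Q := by
    rintro Q x ⟨i, j, hj, y, hy, rfl⟩
    refine ⟨i, j, hj, k * y, P.kB y hy, ?_⟩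
    have h1 : Commute k (a ^ i * b ^ j) :=
      ((show Commute k a from P.ak.symm).zpow_right i).mul_right
        ((show Commute k b from P.bk.symm).zpow_right j)
    rw [← mul_assoc, h1.eq, mul_assoc]
  have hne1 : (Sl a b B (fun j => c' ≤ j)).Nonempty := ⟨a ^ (0 : ℤ) * b ^ c' * 1, 0, c', le_refl _, 1, P.one, rfl⟩
  have hne2 : (Sl a b B (fun j => j ≤ -c')).Nonempty := ⟨a ^ (0 : ℤ) * b ^ (-c') * 1, 0, -c', le_refl _, 1, P.one, rfl⟩
  have hd1 : Disjoint (Sl a b B (fun j => c' ≤ j)) l := by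
    rw [Set.disjoint_left]
    rintro _ ⟨i, j, hj, y, hy, rfl⟩ hyl
    have h1 := hLl i j y hy hyl
    have h2 := le_abs_self j
    omega
  have hd2 : Disjoint (Sl a b B (fun j => j ≤ -c')) l := by
    rw [Set.disjoint_left]
    rintro _ ⟨i, j, hj, y, hy, rfl⟩ hyl
    have h1 := hLl i j y hy hyl
    have h2 := neg_abs_le j
    omega
  have hex : ∀ R : Set Γ, R.Nonempty → Disjoint R l → (∀ x ∈ R, k * x ∈ R) →
      ∃ x ∈ l, k * x ∈ UU S l R := by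
    intro R hR hRl hkR
    by_contra hcon
    push Not at hcon
    exact nosep hS (cay_closed hS) ho hko hl.1 hkl hR hRl hkR hcon
  have hall : ∀ R : Set Γ, R.Nonempty → Disjoint R l → (∀ x ∈ R, k * x ∈ R) →
      ∀ x ∈ l, k * x ∈ UU S l R := by
    intro R hR hRl hkR x hx
    obtain ⟨x₀, hx₀, W, hW, hWl, hxW, r, hrW, hrR⟩ := hex R hR hRl hkR
    refine ⟨W ∪ (fun x => k * x) '' l, conn_union' hW (conn_left hS k hl) hxW ⟨x₀, hx₀, rfl⟩, ?_,
      Or.inr ⟨x, hx, rfl⟩, r, Or.inl hrW, hrR⟩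
    rw [Set.disjoint_union_left]
    refine ⟨hWl, ?_⟩
    rw [Set.disjoint_left]
    rintro _ ⟨y, hy, rfl⟩ hyl
    exact hkl y hy hyl
  obtain ⟨x₀, hx₀⟩ := hl.1
  obtain ⟨W, hW, hWl, hxW, p, hpW, hpR⟩ := hall _ hne1 hd1 (hk1 _) x₀ hx₀
  obtain ⟨W', hW', hWl', hxW', q, hqW, hqR⟩ := hall _ hne2 hd2 (hk1 _) x₀ hx₀
  obtain ⟨F, hF, hFW, hFc, hpF, hqF⟩ := fin_sub (conn_union' hW hW' hxW hxW') (Or.inl hpW) (Or.inr hqW)
  refine ⟨F, hF, hFc, ?_, ⟨p, hpF, ?_⟩, ⟨q, hqF, ?_⟩⟩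
  · exact Disjoint.mono_left hFW (Set.disjoint_union_left.2 ⟨hWl, hWl'⟩)
  · obtain ⟨i, j, hj, y, hy, rfl⟩ := hpR
    exact ⟨i, j, hc1.trans hj, y, hy, rfl⟩
  · obtain ⟨i, j, hj, y, hy, rfl⟩ := hqR
    exact ⟨i, j, hj.trans (neg_le_neg hc1), y, hy, rfl⟩

end Pool.Agent.Helper34.KZ
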